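import Mathlib
import Pool.Agent.Helper93.Sheet.Walk

set_option autoImplicit false

namespace Pool.Agent.Helper93.SheetU

open Pool.Agent.Helper93.Sheet

open MeasureTheory ProbabilityTheory ENNReal NNReal

variable {Ω : Type*} [MeasurableSpace Ω]

/-- `W` is a random walk with Gaussian steps of variance `v`. -/
def IsWalk (P : Measure Ω) (W : Ω → ℕ → E) (v : ℝ≥0) : Prop :=
  ∀ (ι : Type) [Fintype ι] (σ : ι → ℕ), Function.Injective σ →
    P.map (fun ω (l : ι) => inc (W ω) (σ l)) = Measure.pi (fun _ : ι => G4 v)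

theorem aemeasurable_of_map_eq_prob {β : Type*} [MeasurableSpace β] {P : Measure Ω} {f : Ω → β}
    {μ : Measure β} [IsProbabilityMeasure μ] (h : P.map f = μ) : AEMeasurable f P := by
  by_contra hcon
  rw [Measure.map_of_not_aemeasurable hcon] at h
  have : μ Set.univ = 0 := by rw [← h]; simp
  rw [measure_univ] at this
  exact one_ne_zero this

theorem IsWalk.map_fwd {P : Measure Ω} {W : Ω → ℕ → E} {v : ℝ≥0} (h : IsWalk P W v) (r n : ℕ) :
    P.map (fun ω => fwd (W ω) r n) = Measure.pi (fun _ : Fin n => G4 v) :=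
  h (Fin n) (fun l => r + l) (fun a b hab => by
    apply Fin.ext
    simpa using hab)

theorem IsWalk.map_bwd {P : Measure Ω} {W : Ω → ℕ → E} {v : ℝ≥0} (h : IsWalk P W v) (r n : ℕ)
    (hn : n ≤ r) :
    P.map (fun ω => bwd (W ω) r n) = Measure.pi (fun _ : Fin n => G4 v) :=
  h (Fin n) (fun l => r - 1 - l) (fun a b hab => by
    apply Fin.ext
    have ha := a.2
    have hb := b.2
    simp only at hab
    omega)

theorem IsWalk.map_pair {P : Measure Ω} {W : Ω → ℕ → E} {v : ℝ≥0} (h : IsWalk P W v) (R m : ℕ) :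
    P.map (fun ω => (bwd (W ω) R R, fwd (W ω) R m)) =
      (Measure.pi (fun _ : Fin R => G4 v)).prod (Measure.pi (fun _ : Fin m => G4 v)) := by
  have h1 := h (Fin R ⊕ Fin m) (Sum.elim (fun l => R - 1 - l) (fun l => R + l)) (by
    intro a b hab
    rcases a with a | a <;> rcases b with b | b
    · simp only [Sum.elim_inl] at hab
      congr 1
      apply Fin.ext
      have ha := a.2
      have hb := b.2
      omega
    · simp only [Sum.elim_inl, Sum.elim_inr] at hab
      have ha := a.2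
      omega
    · simp only [Sum.elim_inl, Sum.elim_inr] at hab
      have hb := b.2
      omega
    · simp only [Sum.elim_inr] at hab
      congr 1
      apply Fin.ext
      omega)
  have hae := aemeasurable_of_map_eq_prob h1
  have h2 := (measurePreserving_sumPiEquivProdPi (X := fun _ : Fin R ⊕ Fin m => E)
    (fun _ : Fin R ⊕ Fin m => G4 v))
  rw [← h2.map_eq, ← h1, AEMeasurable.map_map_of_aemeasurable h2.measurable.aemeasurable hae]
  rfl

theorem measurable_AApair (ρ : ℝ) (n m : ℕ) :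
    Measurable (fun p : (Fin n → E) × (Fin m → E) => A (fun y => A (ind ρ) p.2 y) p.1 0) := by
  unfold A
  apply Finset.measurable_sum
  intro i _
  apply Finset.measurable_sum
  intro j _
  exact (measurable_ind ρ).comp ((measurable_const.add
    ((measurable_ps i).comp measurable_fst)).add ((measurable_ps j).comp measurable_snd))

theorem measurable_FF (ρ : ℝ) (m b' : ℕ) : Measurable (fun η : Fin m → E => FF ρ η b') := by
  unfold FF
  apply Finset.measurable_sum
  intro i _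
  exact (measurable_phi ρ).comp ((measurable_ps i).sub (measurable_ps b'))

theorem phi_moment (v : ℝ≥0) (hv : v ≠ 0) (ρ : ℝ) (hρ : 0 < ρ) (L n k : ℕ)
    (hL : ((n + 1 : ℕ) : ℝ) ≤ 4 ^ L) :
    ∫⁻ ξ : Fin n → E, (A (phi ρ) ξ 0) ^ (k + 1) ∂(Measure.pi fun _ => G4 v) ≤
      (k + 1).factorial * (ENNReal.ofReal (801 * (L + 1) * (1 + ρ ^ 2 / v))) ^ (k + 1) := by
  set β := ENNReal.ofReal (801 * (L + 1) * (1 + ρ ^ 2 / v)) with hβ
  have hle : ∀ n' ≤ n, ∀ x, ∫⁻ ξ : Fin n' → E, A (phi ρ) ξ x ∂(Measure.pi fun _ => G4 v) ≤ β := by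
    intro n' hn' x
    apply lintegral_A_phi_le v hv ρ hρ L n' _ x
    refine le_trans ?_ hL
    exact_mod_cast Nat.succ_le_succ hn'
  have h1 := khas (G4 v) (phi ρ) (measurable_phi ρ) β n (fun n' hn' x _ => hle n' hn' x) k n le_rfl 0
  refine h1.trans ?_
  calc ((k + 1).factorial : ℝ≥0∞) * β ^ k *
        ∫⁻ ξ : Fin n → E, A (phi ρ) ξ 0 ∂(Measure.pi fun _ => G4 v)
      ≤ ((k + 1).factorial : ℝ≥0∞) * β ^ k * β := by
        gcongr
        exact hle n le_rfl 0
    _ = ((k + 1).factorial : ℝ≥0∞) * β ^ (k + 1) := by ring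

/-- The moment bound for the number of near coincidences. -/
theorem moment_MM {P : Measure Ω} {W : Ω → ℕ → E} {v : ℝ≥0} (h : IsWalk P W v) (hv : v ≠ 0)
    (ρ : ℝ) (hρ : 0 < ρ) (L R m k : ℕ) (hL : ((R + m + 1 : ℕ) : ℝ) ≤ 4 ^ L) :
    ∫⁻ ω, (MM ρ (W ω) R m) ^ (k + 1) ∂P ≤
      (m + 1 : ℕ) * (2 ^ (k + 2) * ((k + 1).factorial) ^ 2 *
        (ENNReal.ofReal (600 * (1 + ρ ^ 2 / v)) *
          ENNReal.ofReal (801 * (L + 1) * (1 + ρ ^ 2 / v))) ^ (k + 1)) := by
  set C := ENNReal.ofReal (200 * (1 + ρ ^ 2 / v)) with hC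
  set β := ENNReal.ofReal (801 * (L + 1) * (1 + ρ ^ 2 / v)) with hβ
  have hpair := h.map_pair R m
  have hpm := aemeasurable_of_map_eq_prob hpair
  have hG : Measurable (fun p : (Fin R → E) × (Fin m → E) =>
      (A (fun y => A (ind ρ) p.2 y) p.1 0) ^ (k + 1)) := (measurable_AApair ρ R m).pow_const _
  have hH : Measurable (fun η : Fin m → E => ((k + 1).factorial : ℝ≥0∞) *
      (C * 3) ^ (k + 1) * ∑ b' ∈ Finset.range (m + 1), (FF ρ η b') ^ (k + 1)) := by
    apply Measurable.const_mul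
    apply Finset.measurable_sum
    intro b' _
    exact (measurable_FF ρ m b').pow_const _
  have h1 : ∫⁻ ω, (MM ρ (W ω) R m) ^ (k + 1) ∂P =
      ∫⁻ η : Fin m → E, ∫⁻ ξ : Fin R → E, (A (fun y => A (ind ρ) η y) ξ 0) ^ (k + 1)
        ∂(Measure.pi fun _ => G4 v) ∂(Measure.pi fun _ => G4 v) := by
    simp only [MM_eq]
    rw [← lintegral_prod_symm' _ hG]
    rw [← hpair, lintegral_map' hG.aemeasurable hpm]
  have h2 : ∫⁻ ω, (MM ρ (W ω) R m) ^ (k + 1) ∂P ≤
      ∫⁻ ω, ((k + 1).factorial : ℝ≥0∞) * (C * 3) ^ (k + 1) *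
        ∑ b' ∈ Finset.range (m + 1), (FF ρ (fwd (W ω) R m) b') ^ (k + 1) ∂P := by
    rw [h1]
    have hf := h.map_fwd R m
    have hfm := aemeasurable_of_map_eq_prob hf
    rw [← lintegral_map' (f := fun η : Fin m → E => ((k + 1).factorial : ℝ≥0∞) *
      (C * 3) ^ (k + 1) * ∑ b' ∈ Finset.range (m + 1), (FF ρ η b') ^ (k + 1)) hH.aemeasurable hfm,
      hf]
    apply lintegral_mono
    intro η
    refine (cond_moment v hv ρ hρ R m k η).trans ?_
    have h3 := Fmax_pow_le ρ η k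
    calc ((k + 1).factorial : ℝ≥0∞) * (C * (3 * Fmax ρ η)) ^ (k + 1)
        = ((k + 1).factorial : ℝ≥0∞) * (C * 3) ^ (k + 1) * (Fmax ρ η) ^ (k + 1) := by
          rw [← mul_assoc C, mul_pow (C * 3), mul_assoc]
      _ ≤ _ := mul_le_mul' le_rfl h3
  refine h2.trans ?_
  have hK : ∀ b' ∈ Finset.range (m + 1), ∫⁻ ω, (FF ρ (fwd (W ω) R m) b') ^ (k + 1) ∂P ≤
      2 ^ (k + 2) * (((k + 1).factorial : ℝ≥0∞) * β ^ (k + 1)) := by
    intro b' hb'
    rw [Finset.mem_range] at hb'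
    have hmA : ∀ n : ℕ, Measurable fun ξ : Fin n → E => (A (phi ρ) ξ 0) ^ (k + 1) := fun n =>
      (measurable_A' (measurable_phi ρ) n 0).pow_const _
    have ha : ∫⁻ ω, (A (phi ρ) (fwd (W ω) (R + b') (m - b')) 0) ^ (k + 1) ∂P ≤
        ((k + 1).factorial : ℝ≥0∞) * β ^ (k + 1) := by
      have hf := h.map_fwd (R + b') (m - b')
      have hfm := aemeasurable_of_map_eq_prob hf
      rw [← lintegral_map' (f := fun ξ : Fin (m - b') → E => (A (phi ρ) ξ 0) ^ (k + 1))
        (hmA _).aemeasurable hfm, hf]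
      apply phi_moment v hv ρ hρ L
      refine le_trans ?_ hL
      exact_mod_cast (by omega : m - b' + 1 ≤ R + m + 1)
    have hb : ∫⁻ ω, (A (phi ρ) (bwd (W ω) (R + b') b') 0) ^ (k + 1) ∂P ≤
        ((k + 1).factorial : ℝ≥0∞) * β ^ (k + 1) := by
      have hf := h.map_bwd (R + b') b' (by omega)
      have hfm := aemeasurable_of_map_eq_prob hf
      rw [← lintegral_map' (f := fun ξ : Fin b' → E => (A (phi ρ) ξ 0) ^ (k + 1))
        (hmA _).aemeasurable hfm, hf]
      apply phi_moment v hv ρ hρ L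
      refine le_trans ?_ hL
      exact_mod_cast (by omega : b' + 1 ≤ R + m + 1)
    have hmeas1 : AEMeasurable (fun ω => (A (phi ρ) (fwd (W ω) (R + b') (m - b')) 0) ^ (k + 1)) P :=
      (hmA _).comp_aemeasurable (aemeasurable_of_map_eq_prob (h.map_fwd (R + b') (m - b')))
    calc ∫⁻ ω, (FF ρ (fwd (W ω) R m) b') ^ (k + 1) ∂P
        ≤ ∫⁻ ω, 2 ^ (k + 1) * ((A (phi ρ) (fwd (W ω) (R + b') (m - b')) 0) ^ (k + 1) +
            (A (phi ρ) (bwd (W ω) (R + b') b') 0) ^ (k + 1)) ∂P := by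
          apply lintegral_mono
          intro ω
          refine le_trans ?_ (two_pow_bound _ _ _)
          exact pow_le_pow_left' (FF_fwd_le ρ (W ω) R m b' (by omega)) _
      _ = 2 ^ (k + 1) * (∫⁻ ω, (A (phi ρ) (fwd (W ω) (R + b') (m - b')) 0) ^ (k + 1) ∂P +
            ∫⁻ ω, (A (phi ρ) (bwd (W ω) (R + b') b') 0) ^ (k + 1) ∂P) := by
          rw [lintegral_const_mul' _ _ (by simp), lintegral_add_left' hmeas1]
      _ ≤ 2 ^ (k + 1) * (((k + 1).factorial : ℝ≥0∞) * β ^ (k + 1) +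
            ((k + 1).factorial : ℝ≥0∞) * β ^ (k + 1)) := by gcongr
      _ = 2 ^ (k + 2) * (((k + 1).factorial : ℝ≥0∞) * β ^ (k + 1)) := by ring
  have hmeasFF : ∀ b' ∈ Finset.range (m + 1),
      AEMeasurable (fun ω => (FF ρ (fwd (W ω) R m) b') ^ (k + 1)) P := fun b' _ =>
    ((measurable_FF ρ m b').pow_const _).comp_aemeasurable
      (aemeasurable_of_map_eq_prob (h.map_fwd R m))
  calc ∫⁻ ω, ((k + 1).factorial : ℝ≥0∞) * (C * 3) ^ (k + 1) *
        ∑ b' ∈ Finset.range (m + 1), (FF ρ (fwd (W ω) R m) b') ^ (k + 1) ∂P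
      = ((k + 1).factorial : ℝ≥0∞) * (C * 3) ^ (k + 1) *
        ∑ b' ∈ Finset.range (m + 1), ∫⁻ ω, (FF ρ (fwd (W ω) R m) b') ^ (k + 1) ∂P := by
        rw [lintegral_const_mul', lintegral_finsetSum' _ hmeasFF]
        apply ENNReal.mul_ne_top (by simp)
        apply ENNReal.pow_ne_top
        exact ENNReal.mul_ne_top ENNReal.ofReal_ne_top (by simp)
    _ ≤ ((k + 1).factorial : ℝ≥0∞) * (C * 3) ^ (k + 1) *
        ∑ b' ∈ Finset.range (m + 1), 2 ^ (k + 2) * (((k + 1).factorial : ℝ≥0∞) * β ^ (k + 1)) := by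
        gcongr with b' hb'
        exact hK b' hb'
    _ = (m + 1 : ℕ) * (2 ^ (k + 2) * ((k + 1).factorial) ^ 2 * ((C * 3) * β) ^ (k + 1)) := by
        rw [Finset.sum_const, Finset.card_range, nsmul_eq_mul, mul_pow (C * 3) β]
        ring
    _ = _ := by
        have h3 : C * 3 = ENNReal.ofReal (600 * (1 + ρ ^ 2 / v)) := by
          have h33 : (3 : ℝ≥0∞) = ENNReal.ofReal 3 := by norm_num
          rw [hC, h33, ← ENNReal.ofReal_mul (by positivity)]
          congr 1
          ring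
        rw [h3]

end Pool.Agent.Helper93.SheetU
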