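import Mathlib
import Pool.Agent.Helper93.SheetU.Law

set_option autoImplicit false

namespace Pool.Agent.Helper93.SheetU

open Pool.Agent.Helper93.Sheet

open MeasureTheory ProbabilityTheory ENNReal NNReal Filter Topology

variable {Ω : Type*} [MeasurableSpace Ω]

/-- Even moments of the standard Gaussian. -/
noncomputable def momC (K : ℕ) : ℝ≥0∞ := ∫⁻ x, ENNReal.ofReal (x ^ (2 * K)) ∂(gaussianReal 0 1)

theorem momC_lt_top (K : ℕ) : momC K < ∞ := by
  unfold momC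
  have h := (memLp_id_gaussianReal (μ := 0) (v := 1) ((2 * K : ℕ) : ℝ≥0)).integrable_norm_pow'
  have h2 : Integrable (fun x : ℝ => x ^ (2 * K)) (gaussianReal 0 1) := by
    refine (h.congr (ae_of_all _ ?_))
    intro x
    simp only [id, Real.norm_eq_abs]
    rw [pow_mul, pow_mul, sq_abs]
  have h3 := h2.lintegral_lt_top
  exact h3

theorem tail (K : ℕ) (w : ℝ≥0) (τ : ℝ) (hτ : 0 < τ) :
    gaussianReal 0 w {x | τ < |x|} ≤ momC K * ENNReal.ofReal ((w / τ ^ 2) ^ K) := by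
  have h1 : (gaussianReal 0 1).map (Real.sqrt w * ·) = gaussianReal 0 w := by
    rw [gaussianReal_map_const_mul, mul_zero, mul_one]
    congr 1
    apply NNReal.eq
    exact Real.sq_sqrt w.2
  rw [← h1, Measure.map_apply (by fun_prop) (measurableSet_lt measurable_const (by fun_prop))]
  set μ := gaussianReal 0 1 with hμ
  have h2 : ENNReal.ofReal (τ ^ (2 * K)) * μ ((fun x => Real.sqrt w * x) ⁻¹' {x | τ < |x|}) ≤
      ENNReal.ofReal ((w : ℝ) ^ K) * momC K := by
    calc ENNReal.ofReal (τ ^ (2 * K)) * μ ((fun x => Real.sqrt w * x) ⁻¹' {x | τ < |x|})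
        ≤ ENNReal.ofReal (τ ^ (2 * K)) *
          μ {x | ENNReal.ofReal (τ ^ (2 * K)) ≤ ENNReal.ofReal ((Real.sqrt w * x) ^ (2 * K))} := by
          gcongr
          intro x hx
          simp only [Set.mem_preimage, Set.mem_ofPred_eq] at hx ⊢
          apply ENNReal.ofReal_le_ofReal
          rw [pow_mul, pow_mul (Real.sqrt w * x), ← sq_abs (Real.sqrt w * x)]
          gcongr
      _ ≤ ∫⁻ x, ENNReal.ofReal ((Real.sqrt w * x) ^ (2 * K)) ∂μ :=
          mul_meas_ge_le_lintegral (by fun_prop) _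
      _ = ENNReal.ofReal ((w : ℝ) ^ K) * momC K := by
          unfold momC
          rw [← lintegral_const_mul _ (by fun_prop)]
          apply lintegral_congr
          intro x
          rw [← ENNReal.ofReal_mul (by positivity)]
          congr 1
          rw [mul_pow, pow_mul, Real.sq_sqrt (NNReal.coe_nonneg w)]
  have h3 : ENNReal.ofReal (τ ^ (2 * K)) ≠ 0 := by
    simp only [ne_eq, ENNReal.ofReal_eq_zero, not_le]
    positivity
  have h4 : μ ((fun x => Real.sqrt w * x) ⁻¹' {x | τ < |x|}) ≤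
      ENNReal.ofReal ((w : ℝ) ^ K) * momC K / ENNReal.ofReal (τ ^ (2 * K)) := by
    rw [ENNReal.le_div_iff_mul_le (Or.inl h3) (Or.inl ENNReal.ofReal_ne_top), mul_comm]
    exact h2
  refine h4.trans (le_of_eq ?_)
  rw [div_pow, ENNReal.ofReal_div_of_pos (by positivity), ← pow_mul]
  simp only [div_eq_mul_inv]
  ring

/-- The bad event for the chaining argument. -/
def badA (B : Ω → ℝ → ℝ → E) (p T n : ℕ) : Set Ω :=
  {ω | ∃ a ∈ Finset.range (T * (4 ^ (p + 1)) ^ (n + 1) + 1),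
    ∃ c ∈ Finset.range (T * (4 ^ (p + 1)) ^ (n + 1) + 1),
    (1 / 2 : ℝ) ^ (p * n) <
      ‖B ω ((a : ℝ) / (4 ^ (p + 1)) ^ (n + 1)) ((c : ℝ) / (4 ^ (p + 1)) ^ (n + 1)) -
        B ω (((a / 4 ^ (p + 1) : ℕ) : ℝ) / (4 ^ (p + 1)) ^ n)
          (((c / 4 ^ (p + 1) : ℕ) : ℝ) / (4 ^ (p + 1)) ^ n)‖}

theorem two_point_tail {P : Measure Ω} [IsProbabilityMeasure P] {B : Ω → ℝ → ℝ → E}
    (h : IsSheet P B) (s t s' t' : ℝ) (hs : 0 ≤ s) (ht : 0 ≤ t) (hs' : s ≤ s') (ht' : t ≤ t')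
    (K : ℕ) (τ : ℝ) (hτ : 0 < τ) :
    P {ω | τ < ‖B ω s' t' - B ω s t‖} ≤
      4 * (momC K * ENNReal.ofReal (((s' * t' - s * t) / τ ^ 2) ^ K)) := by
  have hnn : 0 ≤ s' * t' - s * t := by
    have : s * t ≤ s' * t' := mul_le_mul hs' ht' ht (hs.trans hs')
    linarith
  have hsub : {ω | τ < ‖B ω s' t' - B ω s t‖} ⊆
      ⋃ i : Fin 4, {ω | τ < |B ω s' t' i - B ω s t i|} := by
    intro ω hω
    obtain ⟨i, hi⟩ := exists_norm_eq (B ω s' t' - B ω s t)
    rw [Set.mem_iUnion]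
    refine ⟨i, ?_⟩
    simp only [Set.mem_ofPred_eq] at hω ⊢
    rw [← hi] at hω
    exact hω
  have hi : ∀ i : Fin 4, P {ω | τ < |B ω s' t' i - B ω s t i|} ≤
      momC K * ENNReal.ofReal (((s' * t' - s * t) / τ ^ 2) ^ K) := by
    intro i
    have h1 := h.two_point s t s' t' hs ht hs' ht' i
    have h2 := aemeasurable_of_map_eq_prob h1
    have h3 := tail K (Real.toNNReal (s' * t' - s * t)) τ hτ
    rw [← h1, Measure.map_apply_of_aemeasurable h2
      (measurableSet_lt measurable_const (by fun_prop)), Real.coe_toNNReal _ hnn] at h3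
    exact h3
  calc P {ω | τ < ‖B ω s' t' - B ω s t‖}
      ≤ P (⋃ i : Fin 4, {ω | τ < |B ω s' t' i - B ω s t i|}) := measure_mono hsub
    _ ≤ ∑ i : Fin 4, P {ω | τ < |B ω s' t' i - B ω s t i|} := measure_iUnion_fintype_le _ _
    _ ≤ ∑ i : Fin 4, momC K * ENNReal.ofReal (((s' * t' - s * t) / τ ^ 2) ^ K) :=
        Finset.sum_le_sum fun i _ => hi i
    _ = _ := by simp

end Pool.Agent.Helper93.SheetU
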