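import Mathlib
import Pool.Agent.Helper93.SheetU.Bad2

set_option autoImplicit false

namespace Pool.Agent.Helper93.SheetU

open Pool.Agent.Helper93.Sheet

open MeasureTheory ProbabilityTheory ENNReal NNReal Filter Topology

/-- Pairs of grid times with a near coincidence. -/
noncomputable def Good (ρ : ℝ) (W : ℕ → E) (R m : ℕ) : Finset (ℕ × ℕ) :=
  (Finset.range (R + 1) ×ˢ Finset.range (m + 1)).filter
    (fun x => ‖W (R + x.2) - W (R - x.1)‖ ≤ ρ)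

theorem MM_card (ρ : ℝ) (W : ℕ → E) (R m : ℕ) : MM ρ W R m = ((Good ρ W R m).card : ℝ≥0∞) := by
  unfold MM Good
  rw [Finset.card_filter]
  push_cast
  rw [Finset.sum_product]
  apply Finset.sum_congr rfl
  intro i _
  apply Finset.sum_congr rfl
  intro j _
  unfold ind
  by_cases h : ‖W (R + j) - W (R - i)‖ ≤ ρ
  · rw [Set.indicator_of_mem (by rwa [mem_closedBall_zero_iff])]
    simp [h]
  · rw [Set.indicator_of_notMem (by rwa [mem_closedBall_zero_iff])]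
    simp [h]

/-- Grid cells. -/
def cell (bn : ℝ) (R : ℕ) (x : ℕ × ℕ) : Set (ℝ × ℝ) :=
  Set.Icc (((R - x.1 : ℕ) : ℝ) / bn) ((((R - x.1 : ℕ) : ℝ) + 1) / bn) ×ˢ
    Set.Icc (((R + x.2 : ℕ) : ℝ) / bn) ((((R + x.2 : ℕ) : ℝ) + 1) / bn)

theorem ediam_cell (bn : ℝ) (hbn : 0 < bn) (R : ℕ) (x : ℕ × ℕ) :
    Metric.ediam (cell bn R x) ≤ ENNReal.ofReal (1 / bn) := by
  apply Metric.ediam_le
  intro y hy z hz
  rw [Prod.edist_eq]
  apply max_le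
  · rw [edist_dist]
    apply ENNReal.ofReal_le_ofReal
    have := Real.dist_le_of_mem_Icc hy.1 hz.1
    refine this.trans (le_of_eq ?_)
    field_simp
    ring
  · rw [edist_dist]
    apply ENNReal.ofReal_le_ofReal
    have := Real.dist_le_of_mem_Icc hy.2 hz.2
    refine this.trans (le_of_eq ?_)
    field_simp
    ring

theorem rpow_bound (p n : ℕ) :
    (128 : ℝ≥0∞) ^ n * (ENNReal.ofReal (1 / ((4 : ℝ) ^ (p + 1)) ^ n)) ^
      (((4 / (p + 1) : ℝ≥0)) : ℝ) ≤ 1 := by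
  have h1 : ((4 : ℝ) ^ (p + 1)) ^ n = ((4 : ℝ) ^ n) ^ (p + 1) := by
    rw [← pow_mul, ← pow_mul, mul_comm]
  have h2 : (ENNReal.ofReal (1 / ((4 : ℝ) ^ (p + 1)) ^ n)) ^ (((4 / (p + 1) : ℝ≥0)) : ℝ) =
      ENNReal.ofReal ((1 / (4 : ℝ) ^ n) ^ 4) := by
    rw [ENNReal.ofReal_rpow_of_nonneg (by positivity) (by positivity)]
    congr 1
    rw [h1, ← one_div_pow, ← Real.rpow_natCast, ← Real.rpow_mul (by positivity)]
    have h3 : ((p + 1 : ℕ) : ℝ) * (((4 / (p + 1) : ℝ≥0)) : ℝ) = ((4 : ℕ) : ℝ) := by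
      push_cast
      field_simp
    rw [h3, Real.rpow_natCast]
  rw [h2]
  have h4 : (128 : ℝ≥0∞) ^ n = ENNReal.ofReal ((128 : ℝ) ^ n) := by
    rw [ENNReal.ofReal_pow (by positivity)]
    norm_num
  rw [h4, ← ENNReal.ofReal_mul (by positivity), ← ENNReal.ofReal_one]
  apply ENNReal.ofReal_le_ofReal
  have h5 : (128 : ℝ) ^ n * (1 / 4 ^ n) ^ 4 = (1 / 2) ^ n := by
    rw [← one_div_pow, ← pow_mul, mul_comm n 4, pow_mul, ← mul_pow]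
    norm_num
  rw [h5]
  exact pow_le_one₀ (by norm_num) (by norm_num)

/-- Deterministic covering argument. -/
theorem dimH_cover (f : ℝ → ℝ → E)
    (hf : ContinuousOn (fun x : ℝ × ℝ => f x.1 x.2) ((Set.Ici (0 : ℝ)) ×ˢ (Set.Ici (0 : ℝ))))
    (p T c e n0 : ℕ) (hp : 1 ≤ p) (hT : 1 ≤ T) (hc : c ≤ T * (4 ^ (p + 1)) ^ e)
    (hA : ∀ n ≥ n0, ∀ a ∈ Finset.range (T * (4 ^ (p + 1)) ^ (n + 1) + 1),
      ∀ c ∈ Finset.range (T * (4 ^ (p + 1)) ^ (n + 1) + 1),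
      ‖f ((a : ℝ) / (4 ^ (p + 1)) ^ (n + 1)) ((c : ℝ) / (4 ^ (p + 1)) ^ (n + 1)) -
        f (((a / 4 ^ (p + 1) : ℕ) : ℝ) / (4 ^ (p + 1)) ^ n)
          (((c / 4 ^ (p + 1) : ℕ) : ℝ) / (4 ^ (p + 1)) ^ n)‖ ≤ (1 / 2 : ℝ) ^ (p * n))
    (hB : ∀ n ≥ n0, ∀ a ∈ Finset.range (T * (4 ^ (p + 1)) ^ n + 1),
      (1 : ℝ) / T ≤ (a : ℝ) / (4 ^ (p + 1)) ^ n →
      MM (4 * (1 / 2 : ℝ) ^ (p * n)) (gridPath f p n a)
        (min (c * (4 ^ (p + 1)) ^ (n - e)) (T * (4 ^ (p + 1)) ^ n))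
        (T * (4 ^ (p + 1)) ^ n - min (c * (4 ^ (p + 1)) ^ (n - e)) (T * (4 ^ (p + 1)) ^ n)) <
          (128 : ℝ≥0∞) ^ n)
    (s : ℝ) (hs : 2 / (T : ℝ) ≤ s) (hs' : s ≤ T) :
    dimH {x : ℝ × ℝ | 0 ≤ x.1 ∧ x.1 ≤ (c : ℝ) / (4 ^ (p + 1)) ^ e ∧
      (c : ℝ) / (4 ^ (p + 1)) ^ e ≤ x.2 ∧ x.2 ≤ T ∧ f s x.1 = f s x.2} ≤
      ((4 / (p + 1) : ℝ≥0) : ℝ≥0∞) := by
  set D : Set (ℝ × ℝ) := {x : ℝ × ℝ | 0 ≤ x.1 ∧ x.1 ≤ (c : ℝ) / (4 ^ (p + 1)) ^ e ∧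
      (c : ℝ) / (4 ^ (p + 1)) ^ e ≤ x.2 ∧ x.2 ≤ T ∧ f s x.1 = f s x.2} with hD
  have hT0 : (0 : ℝ) < T := by exact_mod_cast hT
  have hs0 : 0 < s := lt_of_lt_of_le (by positivity) hs
  apply dimH_le_of_hausdorffMeasure_ne_top
  let an : ℕ → ℕ := fun n => ⌊s * ((4 : ℝ) ^ (p + 1)) ^ n⌋₊
  let Rn : ℕ → ℕ := fun n => c * (4 ^ (p + 1)) ^ (n - e)
  let mn : ℕ → ℕ := fun n => T * (4 ^ (p + 1)) ^ n - Rn n
  let G : ℕ → Finset (ℕ × ℕ) := fun n =>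
    Good (4 * (1 / 2 : ℝ) ^ (p * n)) (gridPath f p n (an n)) (Rn n) (mn n)
  have hpow : Tendsto (fun m : ℕ => ((4 : ℝ) ^ (p + 1)) ^ m) atTop atTop :=
    tendsto_pow_atTop_atTop_of_one_lt (one_lt_pow₀ (by norm_num) (by omega))
  have hlarge : ∀ᶠ n in atTop, n0 ≤ n ∧ e ≤ n ∧ (T : ℝ) ≤ ((4 : ℝ) ^ (p + 1)) ^ n := by
    filter_upwards [eventually_ge_atTop n0, eventually_ge_atTop e,
      hpow.eventually_ge_atTop (T : ℝ)] with n h1 h2 h3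
    exact ⟨h1, h2, h3⟩
  have hr : Tendsto (fun n : ℕ => ENNReal.ofReal (1 / ((4 : ℝ) ^ (p + 1)) ^ n)) atTop (𝓝 0) := by
    rw [← ENNReal.ofReal_zero]
    apply ENNReal.tendsto_ofReal
    simp only [one_div]
    exact hpow.inv_tendsto_atTop
  have hcov : ∀ᶠ n in atTop, D ⊆ ⋃ x : G n, cell (((4 : ℝ) ^ (p + 1)) ^ n) (Rn n) x := by
    filter_upwards [hlarge] with n hn
    obtain ⟨hn0, hne, hbT⟩ := hn
    rintro ⟨t1, t2⟩ ⟨ht1, ht1r, ht2r, ht2, hft⟩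
    simp only at ht1 ht1r ht2r ht2 hft
    set bn : ℝ := ((4 : ℝ) ^ (p + 1)) ^ n with hbn
    have hbn0 : 0 < bn := by positivity
    have hr0 : (0 : ℝ) ≤ (c : ℝ) / (4 ^ (p + 1)) ^ e := by positivity
    have hRr : (c : ℝ) / (4 ^ (p + 1)) ^ e * bn = (Rn n : ℝ) := by
      simp only [Rn]
      push_cast
      have : bn = ((4 : ℝ) ^ (p + 1)) ^ e * ((4 : ℝ) ^ (p + 1)) ^ (n - e) := by
        rw [hbn, ← pow_add]
        congr 1
        omega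
      rw [this]
      field_simp
    set i0 : ℕ := ⌊t1 * bn⌋₊ with hi0
    set j0 : ℕ := ⌊t2 * bn⌋₊ with hj0
    have hi0R : i0 ≤ Rn n := by
      apply Nat.floor_le_of_le
      rw [← hRr]
      gcongr
    have hj0R : Rn n ≤ j0 := by
      apply Nat.le_floor
      rw [← hRr]
      gcongr
    have ht20 : 0 ≤ t2 := hr0.trans ht2r
    have hj0T : j0 ≤ T * (4 ^ (p + 1)) ^ n := by
      apply Nat.floor_le_of_le
      push_cast
      gcongr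
    have hch1 := chain f hf p T n0 hp hA n hn0 s t1 hs0.le hs' ht1
      (ht1r.trans (ht2r.trans ht2))
    have hch2 := chain f hf p T n0 hp hA n hn0 s t2 hs0.le hs' ht20 ht2
    rw [Set.mem_iUnion]
    have hmem : (Rn n - i0, j0 - Rn n) ∈ G n := by
      simp only [G, Good, Finset.mem_filter, Finset.mem_product, Finset.mem_range]
      refine ⟨⟨by omega, ?_⟩, ?_⟩
      · simp only [mn]
        omega
      · have e1 : Rn n + (j0 - Rn n) = j0 := by omega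
        have e2 : Rn n - (Rn n - i0) = i0 := by omega
        rw [e1, e2]
        simp only [gridPath, an]
        rw [← div_eq_mul_inv, ← div_eq_mul_inv]
        have e3 : f ((⌊s * bn⌋₊ : ℝ) / bn) ((j0 : ℝ) / bn) - f ((⌊s * bn⌋₊ : ℝ) / bn) ((i0 : ℝ) / bn) =
            (f s t1 - f ((⌊s * bn⌋₊ : ℝ) / bn) ((i0 : ℝ) / bn)) -
            (f s t2 - f ((⌊s * bn⌋₊ : ℝ) / bn) ((j0 : ℝ) / bn)) := by
          rw [hft]
          abel
        calc ‖f ((⌊s * bn⌋₊ : ℝ) / bn) ((j0 : ℝ) / bn) -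
              f ((⌊s * bn⌋₊ : ℝ) / bn) ((i0 : ℝ) / bn)‖
            = ‖(f s t1 - f ((⌊s * bn⌋₊ : ℝ) / bn) ((i0 : ℝ) / bn)) -
              (f s t2 - f ((⌊s * bn⌋₊ : ℝ) / bn) ((j0 : ℝ) / bn))‖ := by rw [e3]
          _ ≤ ‖f s t1 - f ((⌊s * bn⌋₊ : ℝ) / bn) ((i0 : ℝ) / bn)‖ +
              ‖f s t2 - f ((⌊s * bn⌋₊ : ℝ) / bn) ((j0 : ℝ) / bn)‖ := norm_sub_le _ _
          _ ≤ 2 * (1 / 2 : ℝ) ^ (p * n) + 2 * (1 / 2 : ℝ) ^ (p * n) := add_le_add hch1 hch2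
          _ = 4 * (1 / 2 : ℝ) ^ (p * n) := by ring
    refine ⟨⟨_, hmem⟩, ?_⟩
    unfold cell
    simp only
    have e1 : Rn n + (j0 - Rn n) = j0 := by omega
    have e2 : Rn n - (Rn n - i0) = i0 := by omega
    rw [e1, e2]
    refine ⟨⟨?_, ?_⟩, ⟨?_, ?_⟩⟩
    · simp only
      rw [div_le_iff₀ hbn0]
      exact Nat.floor_le (by positivity)
    · simp only
      rw [le_div_iff₀ hbn0]
      exact (Nat.lt_floor_add_one _).le
    · simp only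
      rw [div_le_iff₀ hbn0]
      exact Nat.floor_le (by positivity)
    · simp only
      rw [le_div_iff₀ hbn0]
      exact (Nat.lt_floor_add_one _).le
  have hmain := Measure.hausdorffMeasure_le_liminf_sum (((4 / (p + 1) : ℝ≥0)) : ℝ) D
    (fun n : ℕ => ENNReal.ofReal (1 / ((4 : ℝ) ^ (p + 1)) ^ n)) hr
    (fun (n : ℕ) (x : G n) => cell (((4 : ℝ) ^ (p + 1)) ^ n) (Rn n) x)
    (Eventually.of_forall fun n x => ediam_cell _ (by positivity) _ _) hcov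
  have hle : liminf (fun n : ℕ => ∑ x : G n, Metric.ediam (cell (((4 : ℝ) ^ (p + 1)) ^ n) (Rn n) x) ^
      (((4 / (p + 1) : ℝ≥0)) : ℝ)) atTop ≤ liminf (fun _ : ℕ => (1 : ℝ≥0∞)) atTop := by
    refine liminf_le_liminf ?_
    filter_upwards [hlarge] with n hn
    obtain ⟨hn0, hne, hbT⟩ := hn
    have hRle : Rn n ≤ T * (4 ^ (p + 1)) ^ n := by
      simp only [Rn]
      have e1 : (4 ^ (p + 1)) ^ n = (4 ^ (p + 1)) ^ e * (4 ^ (p + 1)) ^ (n - e) := by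
        rw [← pow_add]
        congr 1
        omega
      rw [e1, ← mul_assoc]
      exact Nat.mul_le_mul_right _ hc
    have hmin : min (c * (4 ^ (p + 1)) ^ (n - e)) (T * (4 ^ (p + 1)) ^ n) = Rn n :=
      min_eq_left hRle
    have hbn0 : (0 : ℝ) < ((4 : ℝ) ^ (p + 1)) ^ n := by positivity
    have hB1 := hB n hn0 (an n) (by
      rw [Finset.mem_range, Nat.lt_succ_iff]
      apply Nat.floor_le_of_le
      push_cast
      gcongr) (by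
      rw [le_div_iff₀ hbn0]
      have h1 := Nat.lt_floor_add_one (s * ((4 : ℝ) ^ (p + 1)) ^ n)
      have h2 : 2 / (T : ℝ) * ((4 : ℝ) ^ (p + 1)) ^ n ≤ s * ((4 : ℝ) ^ (p + 1)) ^ n := by gcongr
      have h3 : 1 ≤ 1 / (T : ℝ) * ((4 : ℝ) ^ (p + 1)) ^ n := by
        rw [one_div, inv_mul_eq_div, le_div_iff₀ hT0]
        linarith
      have h4 : 2 / (T : ℝ) * ((4 : ℝ) ^ (p + 1)) ^ n =
          1 / (T : ℝ) * ((4 : ℝ) ^ (p + 1)) ^ n + 1 / (T : ℝ) * ((4 : ℝ) ^ (p + 1)) ^ n := by ring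
      simp only [an]
      linarith)
    rw [hmin, MM_card] at hB1
    calc ∑ x : G n, Metric.ediam (cell (((4 : ℝ) ^ (p + 1)) ^ n) (Rn n) x) ^
          (((4 / (p + 1) : ℝ≥0)) : ℝ)
        ≤ ∑ x : G n, (ENNReal.ofReal (1 / ((4 : ℝ) ^ (p + 1)) ^ n)) ^
          (((4 / (p + 1) : ℝ≥0)) : ℝ) := by
          apply Finset.sum_le_sum
          intro x _
          exact ENNReal.rpow_le_rpow (ediam_cell _ hbn0 _ _) (by positivity)
      _ = ((G n).card : ℝ≥0∞) * (ENNReal.ofReal (1 / ((4 : ℝ) ^ (p + 1)) ^ n)) ^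
          (((4 / (p + 1) : ℝ≥0)) : ℝ) := by
          rw [Finset.sum_const, Finset.card_univ, nsmul_eq_mul, Fintype.card_coe]
      _ ≤ (128 : ℝ≥0∞) ^ n * (ENNReal.ofReal (1 / ((4 : ℝ) ^ (p + 1)) ^ n)) ^
          (((4 / (p + 1) : ℝ≥0)) : ℝ) := mul_le_mul' hB1.le le_rfl
      _ ≤ 1 := rpow_bound p n
  have hfin := hmain.trans hle
  rw [liminf_const] at hfin
  exact ne_top_of_le_ne_top (by simp) hfin

end Pool.Agent.Helper93.SheetU
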