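import Mathlib
import Pool.Agent.Helper93.SheetU.Cover

set_option autoImplicit false

namespace Pool.Agent.Helper93.SheetU

open Pool.Agent.Helper93.Sheet

open MeasureTheory ProbabilityTheory ENNReal NNReal Filter Topology

/-- The ordered double-point set. -/
def DD (f : ℝ → ℝ → E) (p T c e : ℕ) (s : ℝ) : Set (ℝ × ℝ) :=
  {x : ℝ × ℝ | 0 ≤ x.1 ∧ x.1 ≤ (c : ℝ) / (4 ^ (p + 1)) ^ e ∧
      (c : ℝ) / (4 ^ (p + 1)) ^ e ≤ x.2 ∧ x.2 ≤ T ∧ f s x.1 = f s x.2}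

theorem cover_cells (f : ℝ → ℝ → E)
    (hf : ContinuousOn (fun x : ℝ × ℝ => f x.1 x.2) ((Set.Ici (0 : ℝ)) ×ˢ (Set.Ici (0 : ℝ))))
    (p T c e n0 : ℕ) (hp : 1 ≤ p) (hT : 1 ≤ T) (hc : c ≤ T * (4 ^ (p + 1)) ^ e)
    (hA : ∀ n ≥ n0, ∀ a ∈ Finset.range (T * (4 ^ (p + 1)) ^ (n + 1) + 1),
      ∀ c ∈ Finset.range (T * (4 ^ (p + 1)) ^ (n + 1) + 1),
      ‖f ((a : ℝ) / (4 ^ (p + 1)) ^ (n + 1)) ((c : ℝ) / (4 ^ (p + 1)) ^ (n + 1)) -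
        f (((a / 4 ^ (p + 1) : ℕ) : ℝ) / (4 ^ (p + 1)) ^ n)
          (((c / 4 ^ (p + 1) : ℕ) : ℝ) / (4 ^ (p + 1)) ^ n)‖ ≤ (1 / 2 : ℝ) ^ (p * n))
    (hB : ∀ n ≥ n0, ∀ a ∈ Finset.range (T * (4 ^ (p + 1)) ^ n + 1),
      (1 : ℝ) / T ≤ (a : ℝ) / (4 ^ (p + 1)) ^ n →
      MM (4 * (1 / 2 : ℝ) ^ (p * n)) (gridPath f p n a)
        (min (c * (4 ^ (p + 1)) ^ (n - e)) (T * (4 ^ (p + 1)) ^ n))
        (T * (4 ^ (p + 1)) ^ n - min (c * (4 ^ (p + 1)) ^ (n - e)) (T * (4 ^ (p + 1)) ^ n)) <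
          (128 : ℝ≥0∞) ^ n)
    (s : ℝ) (hs : 2 / (T : ℝ) ≤ s) (hs' : s ≤ T)
    (n : ℕ) (hn0 : n0 ≤ n) (hne : e ≤ n) (hbT : (T : ℝ) ≤ ((4 : ℝ) ^ (p + 1)) ^ n) :
    ∃ G : Finset (ℕ × ℕ), (G.card : ℝ≥0∞) < (128 : ℝ≥0∞) ^ n ∧
      DD f p T c e s ⊆ ⋃ x ∈ G, cell (((4 : ℝ) ^ (p + 1)) ^ n) (c * (4 ^ (p + 1)) ^ (n - e)) x := by
  have hT0 : (0 : ℝ) < T := by exact_mod_cast hT
  have hs0 : 0 < s := lt_of_lt_of_le (by positivity) hs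
  set an : ℕ := ⌊s * ((4 : ℝ) ^ (p + 1)) ^ n⌋₊ with han
  set Rn : ℕ := c * (4 ^ (p + 1)) ^ (n - e) with hRn
  set mn : ℕ := T * (4 ^ (p + 1)) ^ n - Rn with hmn
  refine ⟨Good (4 * (1 / 2 : ℝ) ^ (p * n)) (gridPath f p n an) Rn mn, ?_, ?_⟩
  · have hRle : Rn ≤ T * (4 ^ (p + 1)) ^ n := by
      simp only [Rn]
      have e1 : (4 ^ (p + 1)) ^ n = (4 ^ (p + 1)) ^ e * (4 ^ (p + 1)) ^ (n - e) := by
        rw [← pow_add]
        congr 1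
        omega
      rw [e1, ← mul_assoc]
      exact Nat.mul_le_mul_right _ hc
    have hmin : min (c * (4 ^ (p + 1)) ^ (n - e)) (T * (4 ^ (p + 1)) ^ n) = Rn :=
      min_eq_left hRle
    have hbn0 : (0 : ℝ) < ((4 : ℝ) ^ (p + 1)) ^ n := by positivity
    have hB1 := hB n hn0 an (by
      rw [Finset.mem_range, Nat.lt_succ_iff]
      apply Nat.floor_le_of_le
      push_cast
      gcongr) (by
      rw [le_div_iff₀ hbn0]
      have h1 := Nat.lt_floor_add_one (s * ((4 : ℝ) ^ (p + 1)) ^ n)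
      have h2 : 2 / (T : ℝ) * ((4 : ℝ) ^ (p + 1)) ^ n ≤ s * ((4 : ℝ) ^ (p + 1)) ^ n := by gcongr
      have h3 : 1 ≤ 1 / (T : ℝ) * ((4 : ℝ) ^ (p + 1)) ^ n := by
        rw [one_div, inv_mul_eq_div, le_div_iff₀ hT0]
        linarith
      have h4 : 2 / (T : ℝ) * ((4 : ℝ) ^ (p + 1)) ^ n =
          1 / (T : ℝ) * ((4 : ℝ) ^ (p + 1)) ^ n + 1 / (T : ℝ) * ((4 : ℝ) ^ (p + 1)) ^ n := by ring
      rw [han]
      linarith)
    rw [hmin, MM_card] at hB1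
    exact hB1
  · rintro ⟨t1, t2⟩ ⟨ht1, ht1r, ht2r, ht2, hft⟩
    simp only at ht1 ht1r ht2r ht2 hft
    set bn : ℝ := ((4 : ℝ) ^ (p + 1)) ^ n with hbn
    have hbn0 : 0 < bn := by positivity
    have hr0 : (0 : ℝ) ≤ (c : ℝ) / (4 ^ (p + 1)) ^ e := by positivity
    have hRr : (c : ℝ) / (4 ^ (p + 1)) ^ e * bn = (Rn : ℝ) := by
      simp only [Rn]
      push_cast
      have : bn = ((4 : ℝ) ^ (p + 1)) ^ e * ((4 : ℝ) ^ (p + 1)) ^ (n - e) := by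
        rw [hbn, ← pow_add]
        congr 1
        omega
      rw [this]
      field_simp
    set i0 : ℕ := ⌊t1 * bn⌋₊ with hi0
    set j0 : ℕ := ⌊t2 * bn⌋₊ with hj0
    have hi0R : i0 ≤ Rn := by
      apply Nat.floor_le_of_le
      rw [← hRr]
      gcongr
    have hj0R : Rn ≤ j0 := by
      apply Nat.le_floor
      rw [← hRr]
      gcongr
    have ht20 : 0 ≤ t2 := hr0.trans ht2r
    have hj0T : j0 ≤ T * (4 ^ (p + 1)) ^ n := by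
      apply Nat.floor_le_of_le
      push_cast
      gcongr
    have hch1 := chain f hf p T n0 hp hA n hn0 s t1 hs0.le hs' ht1
      (ht1r.trans (ht2r.trans ht2))
    have hch2 := chain f hf p T n0 hp hA n hn0 s t2 hs0.le hs' ht20 ht2
    rw [Set.mem_iUnion₂]
    refine ⟨(Rn - i0, j0 - Rn), ?_, ?_⟩
    · simp only [Good, Finset.mem_filter, Finset.mem_product, Finset.mem_range]
      refine ⟨⟨by omega, ?_⟩, ?_⟩
      · omega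
      · have e1 : Rn + (j0 - Rn) = j0 := by omega
        have e2 : Rn - (Rn - i0) = i0 := by omega
        rw [e1, e2]
        simp only [gridPath]
        rw [← div_eq_mul_inv, ← div_eq_mul_inv, han]
        have e3 : f ((⌊s * bn⌋₊ : ℝ) / bn) ((j0 : ℝ) / bn) - f ((⌊s * bn⌋₊ : ℝ) / bn) ((i0 : ℝ) / bn) =
            (f s t1 - f ((⌊s * bn⌋₊ : ℝ) / bn) ((i0 : ℝ) / bn)) -
            (f s t2 - f ((⌊s * bn⌋₊ : ℝ) / bn) ((j0 : ℝ) / bn)) := by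
          rw [hft]
          abel
        calc ‖f ((⌊s * bn⌋₊ : ℝ) / bn) ((j0 : ℝ) / bn) -
              f ((⌊s * bn⌋₊ : ℝ) / bn) ((i0 : ℝ) / bn)‖
            = ‖(f s t1 - f ((⌊s * bn⌋₊ : ℝ) / bn) ((i0 : ℝ) / bn)) -
              (f s t2 - f ((⌊s * bn⌋₊ : ℝ) / bn) ((j0 : ℝ) / bn))‖ := by rw [e3]
          _ ≤ ‖f s t1 - f ((⌊s * bn⌋₊ : ℝ) / bn) ((i0 : ℝ) / bn)‖ +
              ‖f s t2 - f ((⌊s * bn⌋₊ : ℝ) / bn) ((j0 : ℝ) / bn)‖ := norm_sub_le _ _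
          _ ≤ 2 * (1 / 2 : ℝ) ^ (p * n) + 2 * (1 / 2 : ℝ) ^ (p * n) := add_le_add hch1 hch2
          _ = 4 * (1 / 2 : ℝ) ^ (p * n) := by ring
    · unfold cell
      simp only
      have e1 : Rn + (j0 - Rn) = j0 := by omega
      have e2 : Rn - (Rn - i0) = i0 := by omega
      rw [e1, e2]
      refine ⟨⟨?_, ?_⟩, ⟨?_, ?_⟩⟩
      · simp only
        rw [div_le_iff₀ hbn0]
        exact Nat.floor_le (by positivity)
      · simp only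
        rw [le_div_iff₀ hbn0]
        exact (Nat.lt_floor_add_one _).le
      · simp only
        rw [div_le_iff₀ hbn0]
        exact Nat.floor_le (by positivity)
      · simp only
        rw [le_div_iff₀ hbn0]
        exact (Nat.lt_floor_add_one _).le

/-- Cells are contained in small balls. -/
theorem cell_subset (bn : ℝ) (hbn : 0 < bn) (R : ℕ) (x : ℕ × ℕ) :
    cell bn R x ⊆ Metric.closedBall ((((R - x.1 : ℕ) : ℝ) / bn, ((R + x.2 : ℕ) : ℝ) / bn)) (1 / bn) := by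
  rintro ⟨t1, t2⟩ ⟨⟨h1, h2⟩, ⟨h3, h4⟩⟩
  simp only at h1 h2 h3 h4
  rw [Metric.mem_closedBall, Prod.dist_eq]
  rw [add_div] at h2 h4
  apply max_le
  · simp only [Real.dist_eq]
    rw [abs_le]
    constructor <;> linarith [div_pos one_pos hbn]
  · simp only [Real.dist_eq]
    rw [abs_le]
    constructor <;> linarith [div_pos one_pos hbn]

/-- Covering of one piece at all large scales, uniformly in `s`. -/
theorem piece (f : ℝ → ℝ → E)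
    (hf : ContinuousOn (fun x : ℝ × ℝ => f x.1 x.2) ((Set.Ici (0 : ℝ)) ×ˢ (Set.Ici (0 : ℝ))))
    (p T c e n0 : ℕ) (hp : 1 ≤ p) (hT : 1 ≤ T) (hc : c ≤ T * (4 ^ (p + 1)) ^ e)
    (hA : ∀ n ≥ n0, ∀ a ∈ Finset.range (T * (4 ^ (p + 1)) ^ (n + 1) + 1),
      ∀ c ∈ Finset.range (T * (4 ^ (p + 1)) ^ (n + 1) + 1),
      ‖f ((a : ℝ) / (4 ^ (p + 1)) ^ (n + 1)) ((c : ℝ) / (4 ^ (p + 1)) ^ (n + 1)) -
        f (((a / 4 ^ (p + 1) : ℕ) : ℝ) / (4 ^ (p + 1)) ^ n)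
          (((c / 4 ^ (p + 1) : ℕ) : ℝ) / (4 ^ (p + 1)) ^ n)‖ ≤ (1 / 2 : ℝ) ^ (p * n))
    (hB : ∀ n ≥ n0, ∀ a ∈ Finset.range (T * (4 ^ (p + 1)) ^ n + 1),
      (1 : ℝ) / T ≤ (a : ℝ) / (4 ^ (p + 1)) ^ n →
      MM (4 * (1 / 2 : ℝ) ^ (p * n)) (gridPath f p n a)
        (min (c * (4 ^ (p + 1)) ^ (n - e)) (T * (4 ^ (p + 1)) ^ n))
        (T * (4 ^ (p + 1)) ^ n - min (c * (4 ^ (p + 1)) ^ (n - e)) (T * (4 ^ (p + 1)) ^ n)) <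
          (128 : ℝ≥0∞) ^ n) :
    ∃ N : ℕ, ∀ s : ℝ, 2 / (T : ℝ) ≤ s → s ≤ T → ∀ n : ℕ, N ≤ n →
      ∃ F : Finset (ℝ × ℝ), (F.card : ℝ) ≤ 128 ^ n ∧
        DD f p T c e s ⊆ ⋃ x ∈ F, Metric.closedBall x (1 / ((4 : ℝ) ^ (p + 1)) ^ n) := by
  have hpow : Tendsto (fun m : ℕ => ((4 : ℝ) ^ (p + 1)) ^ m) atTop atTop :=
    tendsto_pow_atTop_atTop_of_one_lt (one_lt_pow₀ (by norm_num) (by omega))
  have hlarge : ∀ᶠ n in atTop, n0 ≤ n ∧ e ≤ n ∧ (T : ℝ) ≤ ((4 : ℝ) ^ (p + 1)) ^ n := by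
    filter_upwards [eventually_ge_atTop n0, eventually_ge_atTop e,
      hpow.eventually_ge_atTop (T : ℝ)] with n h1 h2 h3
    exact ⟨h1, h2, h3⟩
  obtain ⟨N, hN⟩ := eventually_atTop.mp hlarge
  refine ⟨N, fun s hs hs' n hn => ?_⟩
  obtain ⟨h1, h2, h3⟩ := hN n hn
  obtain ⟨G, hG, hcov⟩ := cover_cells f hf p T c e n0 hp hT hc hA hB s hs hs' n h1 h2 h3
  classical
  refine ⟨G.image (fun x : ℕ × ℕ =>
    ((((c * (4 ^ (p + 1)) ^ (n - e) - x.1 : ℕ) : ℝ) / ((4 : ℝ) ^ (p + 1)) ^ n,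
      ((c * (4 ^ (p + 1)) ^ (n - e) + x.2 : ℕ) : ℝ) / ((4 : ℝ) ^ (p + 1)) ^ n) : ℝ × ℝ)), ?_, ?_⟩
  · have hG' : G.card ≤ 128 ^ n := by
      have : (G.card : ℝ≥0∞) < ((128 ^ n : ℕ) : ℝ≥0∞) := by
        push_cast
        exact hG
      exact_mod_cast this.le
    calc ((Finset.card _ : ℕ) : ℝ) ≤ (G.card : ℝ) := by exact_mod_cast Finset.card_image_le
      _ ≤ 128 ^ n := by exact_mod_cast hG'
  · refine hcov.trans ?_
    intro y hy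
    rw [Set.mem_iUnion₂] at hy ⊢
    obtain ⟨x, hx, hyx⟩ := hy
    exact ⟨_, Finset.mem_image_of_mem _ hx, cell_subset _ (by positivity) _ x hyx⟩

end Pool.Agent.Helper93.SheetU
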