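import Mathlib
import Pool.Agent.Helper93.SheetU.Box

set_option autoImplicit false

namespace Pool.Agent.Helper93.SheetU

open Pool.Agent.Helper93.Sheet

open MeasureTheory ProbabilityTheory ENNReal NNReal Filter Topology

variable {Ω : Type*} [MeasurableSpace Ω]

private theorem isometry_swap' : Isometry (Prod.swap : ℝ × ℝ → ℝ × ℝ) := by
  intro x y
  simp [Prod.edist_eq, max_comm]

private theorem exists_cover' (p : ℕ) (f : ℝ → ℝ → E) (s : ℝ) (hs : 0 < s) (x1 x2 : ℝ) (hx1 : 0 < x1)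
    (hx : x1 < x2) (hf : f s x1 = f s x2) :
    ∃ T c e : ℕ, 1 ≤ T ∧ c ≤ T * (4 ^ (p + 1)) ^ e ∧ 2 / (T : ℝ) ≤ s ∧ s ≤ T ∧
      ((x1, x2) : ℝ × ℝ) ∈ DD f p T c e s := by
  obtain ⟨T, hT⟩ := exists_nat_ge (max (max s (2 / s)) (max x2 1))
  have hTs : s ≤ T := (le_max_left _ _).trans ((le_max_left _ _).trans hT)
  have hT2 : 2 / s ≤ T := (le_max_right _ _).trans ((le_max_left _ _).trans hT)
  have hTx : x2 ≤ T := (le_max_left _ _).trans ((le_max_right _ _).trans hT)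
  have hT1 : (1 : ℝ) ≤ T := (le_max_right _ _).trans ((le_max_right _ _).trans hT)
  have hpow : Tendsto (fun m : ℕ => ((4 : ℝ) ^ (p + 1)) ^ m) atTop atTop :=
    tendsto_pow_atTop_atTop_of_one_lt (one_lt_pow₀ (by norm_num) (by omega))
  obtain ⟨e, he⟩ := (hpow.eventually_gt_atTop (1 / (x2 - x1))).exists
  have hb0 : (0 : ℝ) < ((4 : ℝ) ^ (p + 1)) ^ e := by positivity
  have hd : 0 < x2 - x1 := by linarith
  have he' : 1 < (x2 - x1) * ((4 : ℝ) ^ (p + 1)) ^ e := by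
    rw [div_lt_iff₀ hd] at he
    linarith
  set c : ℕ := ⌈x1 * ((4 : ℝ) ^ (p + 1)) ^ e⌉₊ with hc
  have hc1 : x1 * ((4 : ℝ) ^ (p + 1)) ^ e ≤ c := Nat.le_ceil _
  have hc2 : (c : ℝ) < x1 * ((4 : ℝ) ^ (p + 1)) ^ e + 1 := Nat.ceil_lt_add_one (by positivity)
  have hc3 : (c : ℝ) ≤ x2 * ((4 : ℝ) ^ (p + 1)) ^ e := by nlinarith
  refine ⟨T, c, e, by exact_mod_cast hT1, ?_, ?_, hTs, ?_⟩
  · have : (c : ℝ) ≤ T * ((4 : ℝ) ^ (p + 1)) ^ e := hc3.trans (by gcongr)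
    exact_mod_cast this
  · rw [div_le_iff₀ (by linarith)]
    rw [div_le_iff₀ hs] at hT2
    linarith
  · refine ⟨hx1.le, ?_, ?_, hTx, hf⟩
    · simp only
      rw [le_div_iff₀ hb0]
      exact hc1
    · simp only
      rw [div_le_iff₀ hb0]
      exact hc3

/-- Pairs of distinct positive times at which the slice `f s` has a double point. -/
def Pairs {V : Type*} (f : ℝ → ℝ → V) (s : ℝ) : Set (ℝ × ℝ) :=
  {p : ℝ × ℝ | 0 < p.1 ∧ 0 < p.2 ∧ p.1 ≠ p.2 ∧ f s p.1 = f s p.2}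

/-- Uniform covering bound of all separated bounded parts of the sets of pairs. -/
def BoxZero {V : Type*} (f : ℝ → ℝ → V) : Prop :=
  ∀ ε δ M : ℝ, 0 < ε → 0 < δ → 0 < M → ∃ C : ℝ, ∀ s : ℝ, 1 / M ≤ s → s ≤ M →
    ∀ r : ℝ, 0 < r → r ≤ 1 → ∃ F : Finset (ℝ × ℝ), (F.card : ℝ) ≤ C * r ^ (-ε) ∧
      {p ∈ Pairs f s | p.1 ≤ M ∧ p.2 ≤ M ∧ δ ≤ |p.1 - p.2|} ⊆ ⋃ x ∈ F, Metric.closedBall x r

/-- The two families of good events. -/
private def GoodA (f : ℝ → ℝ → E) : Prop := ∀ p T : ℕ, ∃ n0 : ℕ,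
    ∀ n ≥ n0, ∀ a ∈ Finset.range (T * (4 ^ (p + 1)) ^ (n + 1) + 1),
      ∀ c ∈ Finset.range (T * (4 ^ (p + 1)) ^ (n + 1) + 1),
      ‖f ((a : ℝ) / (4 ^ (p + 1)) ^ (n + 1)) ((c : ℝ) / (4 ^ (p + 1)) ^ (n + 1)) -
        f (((a / 4 ^ (p + 1) : ℕ) : ℝ) / (4 ^ (p + 1)) ^ n)
          (((c / 4 ^ (p + 1) : ℕ) : ℝ) / (4 ^ (p + 1)) ^ n)‖ ≤ (1 / 2 : ℝ) ^ (p * n)

private def GoodB (f : ℝ → ℝ → E) : Prop := ∀ p T c e : ℕ, 1 ≤ T → ∃ n0 : ℕ,
    ∀ n ≥ n0, ∀ a ∈ Finset.range (T * (4 ^ (p + 1)) ^ n + 1),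
      (1 : ℝ) / T ≤ (a : ℝ) / (4 ^ (p + 1)) ^ n →
      MM (4 * (1 / 2 : ℝ) ^ (p * n)) (gridPath f p n a)
        (min (c * (4 ^ (p + 1)) ^ (n - e)) (T * (4 ^ (p + 1)) ^ n))
        (T * (4 ^ (p + 1)) ^ n - min (c * (4 ^ (p + 1)) ^ (n - e)) (T * (4 ^ (p + 1)) ^ n)) <
          (128 : ℝ≥0∞) ^ n

private theorem ae_good (P : Measure Ω) [IsProbabilityMeasure P] (B : Ω → ℝ → ℝ → E)
    (h : IsSheet P B) : ∀ᵐ ω ∂P, GoodA (B ω) ∧ GoodB (B ω) := by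
  have hA : ∀ᵐ ω ∂P, ∀ p T : ℕ, ∀ᶠ n in atTop, ω ∉ badA B p T n := by
    rw [ae_all_iff]
    intro p
    rw [ae_all_iff]
    intro T
    exact ae_not_badA h p T
  have hB : ∀ᵐ ω ∂P, ∀ p T c e : ℕ, 1 ≤ T → ∀ᶠ n in atTop,
      ω ∉ badB B p T (fun n => min (c * (4 ^ (p + 1)) ^ (n - e)) (T * (4 ^ (p + 1)) ^ n)) n := by
    rw [ae_all_iff]
    intro p
    rw [ae_all_iff]
    intro T
    rw [ae_all_iff]
    intro c
    rw [ae_all_iff]
    intro e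
    by_cases hT : 1 ≤ T
    · filter_upwards [ae_not_badB h p T hT
        (fun n => min (c * (4 ^ (p + 1)) ^ (n - e)) (T * (4 ^ (p + 1)) ^ n))
        (fun n => min_le_right _ _)] with ω hω _
      exact hω
    · exact ae_of_all _ fun ω hT' => absurd hT' hT
  filter_upwards [hA, hB] with ω hAω hBω
  constructor
  · intro p T
    obtain ⟨n1, hn1⟩ := eventually_atTop.mp (hAω p T)
    refine ⟨n1, fun n hn a ha c' hc' => ?_⟩
    have h1 := hn1 n hn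
    by_contra hcon
    push Not at hcon
    exact h1 ⟨a, ha, c', hc', hcon⟩
  · intro p T c e hT
    obtain ⟨n2, hn2⟩ := eventually_atTop.mp (hBω p T c e hT)
    refine ⟨n2, fun n hn a ha ha' => ?_⟩
    have h1 := hn2 n hn
    by_contra hcon
    push Not at hcon
    exact h1 ⟨a, ha, ha', hcon⟩

private theorem dim_zero (f : ℝ → ℝ → E)
    (hf : ContinuousOn (fun x : ℝ × ℝ => f x.1 x.2) ((Set.Ici (0 : ℝ)) ×ˢ (Set.Ici (0 : ℝ))))
    (hA : GoodA f) (hB : GoodB f) (s : ℝ) (hs : 0 < s) : dimH (Pairs f s) = 0 := by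
  have hpiece : ∀ p T c e : ℕ, 1 ≤ p → 1 ≤ T → c ≤ T * (4 ^ (p + 1)) ^ e → 2 / (T : ℝ) ≤ s →
      s ≤ T → dimH (DD f p T c e s) ≤ ((4 / (p + 1) : ℝ≥0) : ℝ≥0∞) := by
    intro p T c e hp hT hc hs1 hs2
    obtain ⟨n1, hn1⟩ := hA p T
    obtain ⟨n2, hn2⟩ := hB p T c e hT
    exact dimH_cover f hf p T c e (max n1 n2) hp hT hc
      (fun n hn => hn1 n ((le_max_left _ _).trans hn))
      (fun n hn => hn2 n ((le_max_right _ _).trans hn)) s hs1 hs2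
  have hall : ∀ p : ℕ, 1 ≤ p → dimH (Pairs f s) ≤ ((4 / (p + 1) : ℝ≥0) : ℝ≥0∞) := by
    intro p hp
    let I := {i : ℕ × ℕ × ℕ // 1 ≤ i.1 ∧ i.2.1 ≤ i.1 * (4 ^ (p + 1)) ^ i.2.2 ∧
      2 / (i.1 : ℝ) ≤ s ∧ s ≤ i.1}
    have hsub : Pairs f s ⊆
        ⋃ i : I, (DD f p i.1.1 i.1.2.1 i.1.2.2 s ∪
          Prod.swap '' DD f p i.1.1 i.1.2.1 i.1.2.2 s) := by
      rintro ⟨x1, x2⟩ ⟨h1, h2, hne, hf⟩
      simp only at h1 h2 hne hf
      rw [Set.mem_iUnion]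
      rcases lt_or_gt_of_ne hne with hlt | hgt
      · obtain ⟨T, c, e, hT, hc, hs1, hs2, hmem⟩ := exists_cover' p f s hs x1 x2 h1 hlt hf
        exact ⟨⟨(T, c, e), hT, hc, hs1, hs2⟩, Or.inl hmem⟩
      · obtain ⟨T, c, e, hT, hc, hs1, hs2, hmem⟩ :=
          exists_cover' p f s hs x2 x1 h2 hgt hf.symm
        exact ⟨⟨(T, c, e), hT, hc, hs1, hs2⟩, Or.inr ⟨(x2, x1), hmem, rfl⟩⟩
    refine (dimH_mono hsub).trans ?_
    rw [dimH_iUnion]
    apply iSup_le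
    rintro ⟨⟨T, c, e⟩, hT, hc, hs1, hs2⟩
    rw [dimH_union, isometry_swap'.dimH_image, max_self]
    exact hpiece p T c e hp hT hc hs1 hs2
  have hlim : Tendsto (fun p : ℕ => ((4 / (p + 1) : ℝ≥0) : ℝ≥0∞)) atTop (𝓝 0) := by
    rw [← ENNReal.coe_zero, ENNReal.tendsto_coe]
    have h1 : Tendsto (fun p : ℕ => (4 : ℝ) / ((p : ℝ) + 1)) atTop (𝓝 0) := by
      have := (tendsto_one_div_add_atTop_nhds_zero_nat (𝕜 := ℝ)).const_mul 4
      simpa [div_eq_mul_inv] using this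
    rw [← NNReal.tendsto_coe]
    simpa using h1
  apply le_antisymm _ (zero_le)
  apply ge_of_tendsto hlim
  filter_upwards [eventually_ge_atTop 1] with p hp
  exact hall p hp

private theorem box_zero (f : ℝ → ℝ → E)
    (hf : ContinuousOn (fun x : ℝ × ℝ => f x.1 x.2) ((Set.Ici (0 : ℝ)) ×ˢ (Set.Ici (0 : ℝ))))
    (hA : GoodA f) (hB : GoodB f) : BoxZero f := by
  intro ε δ M hε hδ hM
  -- parameters
  obtain ⟨p, hp⟩ := exists_nat_ge (max 1 (4 / ε))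
  have hp1 : 1 ≤ p := by exact_mod_cast (le_max_left _ _).trans hp
  have hpε : 4 ≤ ((p : ℝ) + 1) * ε := by
    have h1 : 4 / ε ≤ p := (le_max_right _ _).trans hp
    rw [div_le_iff₀ hε] at h1
    nlinarith
  obtain ⟨T, hT⟩ := exists_nat_ge (max (max M (2 * M)) 1)
  have hTM : M ≤ T := (le_max_left _ _).trans ((le_max_left _ _).trans hT)
  have hT2M : 2 * M ≤ T := (le_max_right _ _).trans ((le_max_left _ _).trans hT)
  have hT1r : (1 : ℝ) ≤ T := (le_max_right _ _).trans hT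
  have hT1 : 1 ≤ T := by exact_mod_cast hT1r
  set b : ℝ := (4 : ℝ) ^ (p + 1) with hb
  have hb1 : 1 < b := one_lt_pow₀ (by norm_num) (by omega)
  have hb0 : 0 < b := by linarith
  have hpow : Tendsto (fun m : ℕ => b ^ m) atTop atTop :=
    tendsto_pow_atTop_atTop_of_one_lt hb1
  obtain ⟨e, he⟩ := (hpow.eventually_gt_atTop (1 / δ)).exists
  have hbe0 : 0 < b ^ e := by positivity
  have he' : 1 < δ * b ^ e := by
    rw [div_lt_iff₀ hδ] at he
    linarith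
  have hpc : ∀ c : ℕ, c ≤ T * (4 ^ (p + 1)) ^ e → ∃ N : ℕ, ∀ s : ℝ, 2 / (T : ℝ) ≤ s → s ≤ T →
      ∀ n : ℕ, N ≤ n → ∃ F : Finset (ℝ × ℝ), (F.card : ℝ) ≤ 128 ^ n ∧
        DD f p T c e s ⊆ ⋃ x ∈ F, Metric.closedBall x (1 / ((4 : ℝ) ^ (p + 1)) ^ n) := by
    intro c hc
    obtain ⟨n1, hn1⟩ := hA p T
    obtain ⟨n2, hn2⟩ := hB p T c e hT1
    exact piece f hf p T c e (max n1 n2) hp1 hT1 hc
      (fun n hn => hn1 n ((le_max_left _ _).trans hn))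
      (fun n hn => hn2 n ((le_max_right _ _).trans hn))
  choose! Nf hNf using hpc
  set K : ℕ := T * (4 ^ (p + 1)) ^ e + 1 with hK
  set N : ℕ := (Finset.range K).sup Nf with hN
  refine ⟨K * (2 * 128 ^ (N + 1)), fun s hs1 hs2 r hr0 hr1 => ?_⟩
  have hs1' : 2 / (T : ℝ) ≤ s := by
    refine le_trans ?_ hs1
    rw [div_le_div_iff₀ (by linarith) hM]
    linarith
  have hs2' : s ≤ T := hs2.trans hTM
  obtain ⟨m, hm1, hm2⟩ := exists_nat_pow_near_of_lt_one hr0 hr1 (inv_pos.mpr hb0)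
    (inv_lt_one_of_one_lt₀ hb1)
  set n : ℕ := m + 1 + N with hn
  have hrn : 1 / b ^ n ≤ r := by
    refine le_trans ?_ hm1.le
    rw [inv_pow, one_div]
    apply inv_anti₀ (by positivity)
    exact pow_le_pow_right₀ hb1.le (by omega)
  -- counting
  have h128 : (128 : ℝ) ^ m ≤ r ^ (-ε) := by
    have h1 : b ^ m ≤ r⁻¹ := by
      rw [inv_pow] at hm2
      rw [← inv_inv (b ^ m)]
      exact inv_anti₀ hr0 hm2
    have h2 : (128 : ℝ) ≤ b ^ ε := by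
      have h3 : b ^ ε = (4 : ℝ) ^ (((p : ℝ) + 1) * ε) := by
        rw [hb, ← Real.rpow_natCast, ← Real.rpow_mul (by norm_num)]
        push_cast
        rfl
      rw [h3]
      calc (128 : ℝ) ≤ (4 : ℝ) ^ (4 : ℝ) := by
            rw [show (4 : ℝ) ^ (4 : ℝ) = (4 : ℝ) ^ (4 : ℕ) by
              rw [← Real.rpow_natCast]; norm_num]
            norm_num
        _ ≤ _ := Real.rpow_le_rpow_of_exponent_le (by norm_num) hpε
    calc (128 : ℝ) ^ m ≤ (b ^ ε) ^ m := pow_le_pow_left₀ (by norm_num) h2 m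
      _ = (b ^ m) ^ ε := by
          rw [← Real.rpow_natCast, ← Real.rpow_natCast, ← Real.rpow_mul hb0.le,
            ← Real.rpow_mul hb0.le, mul_comm]
      _ ≤ (r⁻¹) ^ ε := Real.rpow_le_rpow (by positivity) h1 hε.le
      _ = r ^ (-ε) := by rw [Real.inv_rpow hr0.le, Real.rpow_neg hr0.le]
  have hF : ∀ c : ℕ, c < K → ∃ F : Finset (ℝ × ℝ), (F.card : ℝ) ≤ 128 ^ n ∧
        DD f p T c e s ⊆ ⋃ x ∈ F, Metric.closedBall x r := by
    intro c hc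
    obtain ⟨F, hF1, hF2⟩ := hNf c (by omega) s hs1' hs2' n
      ((Finset.le_sup (f := Nf) (Finset.mem_range.mpr hc)).trans (by omega))
    refine ⟨F, hF1, hF2.trans ?_⟩
    apply Set.iUnion₂_mono
    intro x _
    exact Metric.closedBall_subset_closedBall hrn
  choose! Fc hFc1 hFc2 using hF
  classical
  refine ⟨(Finset.range K).biUnion fun c => Fc c ∪ (Fc c).image Prod.swap, ?_, ?_⟩
  · have h1 : (((Finset.range K).biUnion fun c => Fc c ∪ (Fc c).image Prod.swap).card : ℝ) ≤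
        ∑ c ∈ Finset.range K, (2 * 128 ^ n : ℝ) := by
      calc (((Finset.range K).biUnion fun c => Fc c ∪ (Fc c).image Prod.swap).card : ℝ)
          ≤ ((∑ c ∈ Finset.range K, (Fc c ∪ (Fc c).image Prod.swap).card : ℕ) : ℝ) := by
            exact_mod_cast Finset.card_biUnion_le
        _ = ∑ c ∈ Finset.range K, ((Fc c ∪ (Fc c).image Prod.swap).card : ℝ) := by push_cast; rfl
        _ ≤ ∑ c ∈ Finset.range K, (2 * 128 ^ n : ℝ) := by
            apply Finset.sum_le_sum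
            intro c hc
            have h2 := hFc1 c (Finset.mem_range.mp hc)
            have h3 : ((Fc c ∪ (Fc c).image Prod.swap).card : ℝ) ≤
                (Fc c).card + ((Fc c).image Prod.swap).card := by
              exact_mod_cast Finset.card_union_le _ _
            have h4 : (((Fc c).image Prod.swap).card : ℝ) ≤ (Fc c).card := by
              exact_mod_cast Finset.card_image_le
            linarith
    refine h1.trans ?_
    rw [Finset.sum_const, Finset.card_range, nsmul_eq_mul]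
    have h5 : (128 : ℝ) ^ n = 128 ^ (N + 1) * 128 ^ m := by
      rw [← pow_add]
      congr 1
      omega
    rw [h5]
    have h6 : (0 : ℝ) ≤ (K : ℝ) * (2 * 128 ^ (N + 1)) := by positivity
    calc (K : ℝ) * (2 * (128 ^ (N + 1) * 128 ^ m)) = (K : ℝ) * (2 * 128 ^ (N + 1)) * 128 ^ m := by
          ring
      _ ≤ _ := mul_le_mul_of_nonneg_left h128 h6
  · have hord : ∀ x1 x2 : ℝ, 0 < x1 → x1 < x2 → f s x1 = f s x2 → x2 ≤ M → δ ≤ x2 - x1 →
        ∃ c : ℕ, c < K ∧ ((x1, x2) : ℝ × ℝ) ∈ DD f p T c e s := by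
      intro x1 x2 h1 h12 hfx h2 hd
      set c : ℕ := ⌈x1 * b ^ e⌉₊ with hc
      have hc1 : x1 * b ^ e ≤ c := Nat.le_ceil _
      have hc2 : (c : ℝ) < x1 * b ^ e + 1 := Nat.ceil_lt_add_one (by positivity)
      have hc3 : (c : ℝ) ≤ x2 * b ^ e := by nlinarith
      refine ⟨c, ?_, h1.le, ?_, ?_, h2.trans hTM, hfx⟩
      · rw [hK, Nat.lt_succ_iff]
        have : (c : ℝ) ≤ T * b ^ e :=
          hc3.trans (mul_le_mul_of_nonneg_right (h2.trans hTM) hbe0.le)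
        rw [hb] at this
        exact_mod_cast this
      · simp only
        rw [le_div_iff₀ hbe0]
        exact hc1
      · simp only
        rw [div_le_iff₀ hbe0]
        exact hc3
    rintro ⟨x1, x2⟩ ⟨⟨h1, h2, hne, hfx⟩, hM1, hM2, hd⟩
    simp only at h1 h2 hne hfx hM1 hM2 hd
    rw [Set.mem_iUnion₂]
    rcases lt_or_gt_of_ne hne with hlt | hgt
    · rw [abs_sub_comm, abs_of_pos (by linarith)] at hd
      obtain ⟨c, hcK, hc⟩ := hord x1 x2 h1 hlt hfx hM2 hd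
      have := hFc2 c hcK hc
      rw [Set.mem_iUnion₂] at this
      obtain ⟨x, hx, hxb⟩ := this
      exact ⟨x, Finset.mem_biUnion.mpr ⟨c, Finset.mem_range.mpr hcK,
        Finset.mem_union_left _ hx⟩, hxb⟩
    · rw [abs_of_pos (by linarith)] at hd
      obtain ⟨c, hcK, hc⟩ := hord x2 x1 h2 hgt hfx.symm hM1 hd
      have := hFc2 c hcK hc
      rw [Set.mem_iUnion₂] at this
      obtain ⟨x, hx, hxb⟩ := this
      refine ⟨Prod.swap x, Finset.mem_biUnion.mpr ⟨c, Finset.mem_range.mpr hcK,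
        Finset.mem_union_right _ (Finset.mem_image_of_mem _ hx)⟩, ?_⟩
      rw [Metric.mem_closedBall, Prod.dist_eq] at hxb ⊢
      rw [max_comm]
      exact hxb

theorem sheet4 (P : Measure Ω) [IsProbabilityMeasure P] (B : Ω → ℝ → ℝ → E)
    (hcont : ∀ᵐ ω ∂P, ContinuousOn (fun p : ℝ × ℝ => B ω p.1 p.2)
        ((Set.Ici (0 : ℝ)) ×ˢ (Set.Ici (0 : ℝ))))
    (h : IsSheet P B) :
    ∀ᵐ ω ∂P, (∀ s : ℝ, 0 < s → dimH (Pairs (B ω) s) = 0) ∧ BoxZero (B ω) := by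
  filter_upwards [hcont, ae_good P B h] with ω h1 h2
  exact ⟨fun s hs => dim_zero _ h1 h2.1 h2.2 s hs, box_zero _ h1 h2.1 h2.2⟩

end Pool.Agent.Helper93.SheetU
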