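import Mathlib
import Pool.Agent.Helper93.SheetU.Final

set_option autoImplicit false

namespace Pool.Agent.Helper93.SheetU

open Pool.Agent.Helper93.Sheet

open MeasureTheory ProbabilityTheory

/-- A continuous `d`-dimensional two-parameter Brownian sheet: a centred Gaussian process indexed by
the quadrant, with values in `ℝ^d`, covariance `min s u * min t v` for equal coordinates and `0` for
different coordinates, and almost surely continuous paths. -/
structure IsBrownianSheet {Ω : Type*} [MeasurableSpace Ω] (P : Measure Ω) {d : ℕ}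
    (B : Ω → ℝ → ℝ → (Fin d → ℝ)) : Prop where
  gaussian : IsGaussianProcess
    (fun (x : {x : ℝ × ℝ // 0 ≤ x.1 ∧ 0 ≤ x.2} × Fin d) ω => B ω x.1.1.1 x.1.1.2 x.2) P
  centred : ∀ s t : ℝ, 0 ≤ s → 0 ≤ t → ∀ i, ∫ ω, B ω s t i ∂P = 0
  covariance : ∀ s t u v : ℝ, 0 ≤ s → 0 ≤ t → 0 ≤ u → 0 ≤ v → ∀ i j,
    cov[fun ω => B ω s t i, fun ω => B ω u v j; P] = if i = j then min s u * min t v else 0
  continuous : ∀ᵐ ω ∂P, ContinuousOn (fun p : ℝ × ℝ => B ω p.1 p.2)
    ((Set.Ici (0 : ℝ)) ×ˢ (Set.Ici (0 : ℝ)))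

theorem IsBrownianSheet.isSheet {Ω : Type*} [MeasurableSpace Ω] {P : Measure Ω} {d : ℕ}
    {B : Ω → ℝ → ℝ → (Fin d → ℝ)} (h : IsBrownianSheet P B) (hd : 4 ≤ d) :
    IsSheet P (fun ω s t i => B ω s t (Fin.castLE hd i)) := by
  intro n x c hx
  have hprob : IsProbabilityMeasure P := h.gaussian.isProbabilityMeasure
  let g : Fin n × Fin 4 → {x : ℝ × ℝ // 0 ≤ x.1 ∧ 0 ≤ x.2} × Fin d :=
    fun q => (⟨x q.1, hx q.1⟩, Fin.castLE hd q.2)
  have h1 := (h.gaussian.comp_right g).smul (fun q => c q.1 q.2)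
  have h2 := h1.hasGaussianLaw_fun_sum (I := Finset.univ)
  set Y : Fin n × Fin 4 → Ω → ℝ := fun q ω =>
    c q.1 q.2 * B ω (x q.1).1 (x q.1).2 (Fin.castLE hd q.2) with hY
  have hZ : (fun ω => ∑ k, ∑ i, c k i * B ω (x k).1 (x k).2 (Fin.castLE hd i)) =
      fun ω => ∑ q, Y q ω := by
    ext ω
    rw [Fintype.sum_prod_type]
  have hYg : ∀ q, HasGaussianLaw (Y q) P := fun q => h1.hasGaussianLaw_eval q
  have hYm : ∀ q, MemLp (Y q) 2 P := fun q => (hYg q).memLp_two
  have hXg : ∀ q : Fin n × Fin 4,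
      MemLp (fun ω => B ω (x q.1).1 (x q.1).2 (Fin.castLE hd q.2)) 2 P := fun q =>
    ((h.gaussian.comp_right g).hasGaussianLaw_eval q).memLp_two
  have h3 : HasGaussianLaw (fun ω => ∑ q, Y q ω) P := h2
  simp only [hZ]
  rw [h3.map_eq_gaussianReal]
  have hmean : ∫ ω, (∑ q, Y q ω) ∂P = 0 := by
    rw [integral_finsetSum _ (fun q _ => (hYg q).integrable)]
    apply Finset.sum_eq_zero
    intro q _
    simp only [hY]
    rw [integral_const_mul, h.centred _ _ (hx q.1).1 (hx q.1).2, mul_zero]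
  have hvar : Var[fun ω => ∑ q, Y q ω; P] = ∑ k, ∑ l, ∑ i, c k i * c l i *
            (min (x k).1 (x l).1 * min (x k).2 (x l).2) := by
    have hm : MemLp (fun ω => ∑ q, Y q ω) 2 P := memLp_finsetSum _ (fun q _ => hYm q)
    rw [← covariance_self hm.aemeasurable, covariance_fun_sum_fun_sum hYm hYm]
    have hc : ∀ q r : Fin n × Fin 4, cov[fun ω => Y q ω, fun ω => Y r ω; P] =
        c q.1 q.2 * c r.1 r.2 * (if q.2 = r.2 then
          min (x q.1).1 (x r.1).1 * min (x q.1).2 (x r.1).2 else 0) := by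
      intro q r
      simp only [hY]
      rw [covariance_const_mul_left, covariance_const_mul_right,
        h.covariance _ _ _ _ (hx q.1).1 (hx q.1).2 (hx r.1).1 (hx r.1).2]
      simp only [Fin.castLE_inj]
      ring
    simp only [hc]
    rw [Fintype.sum_prod_type]
    apply Finset.sum_congr rfl
    intro k _
    simp only
    have : ∀ i : Fin 4, (∑ r : Fin n × Fin 4, c k i * c r.1 r.2 * (if i = r.2 then
          min (x k).1 (x r.1).1 * min (x k).2 (x r.1).2 else 0)) =
        ∑ l, c k i * c l i * (min (x k).1 (x l).1 * min (x k).2 (x l).2) := by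
      intro i
      rw [Fintype.sum_prod_type]
      apply Finset.sum_congr rfl
      intro l _
      simp
    simp only [this]
    rw [Finset.sum_comm]
  rw [hmean, hvar]

end Pool.Agent.Helper93.SheetU
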